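import Pool.Agent.P8H17.UL.LP
import Pool.Agent.P8H17.UL.Core
import Pool.Agent.P8H55.UL.CM
import Pool.Agent.P8H55.UL.MG

/-!
# The local theorems at unramified places (project UL)
-/

set_option autoImplicit false

namespace Pool.Agent.P8H4.PM

open Pool.Agent.P8H17.UL

theorem LP : S_LP := Pool.Agent.P8H17.UL.lp Pool.Agent.P8H55.UL.cm

theorem TN : S_TN := Pool.Agent.P8H17.UL.tn_iff Pool.Agent.P8H55.UL.cm

theorem MG : S_MG := Pool.Agent.P8H55.UL.mg Pool.Agent.P8H17.UL.t_mq Pool.Agent.P8H17.UL.si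

end Pool.Agent.P8H4.PM
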