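import Pool.Agent.P8H17.UL.Stm2
import Pool.Agent.P8H4.PK.Alg

/-!
# The `p`-part over Galois `p`-extensions, with the local conditions at unramified places
-/

set_option autoImplicit false

open NumberField IsDedekindDomain WeierstrassCurve

namespace Pool.Agent.P8H4.PM

open Pool.Agent.P8H4.PL (Gf gal_of_fix Ram Gf_le)
open Pool.Agent.P8H4.PK
open Pool.Agent.TH841.NF (pls)
open Pool.Agent.TH841.NF.D (Sha)
open Pool.Agent.P8H17.UL (tnG S_LP)

section

variable {k K : Type} [Field k] [NumberField k] [Field K] [NumberField K] [Algebra k K]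

/-- the local conditions at the finite places -/
def FinCond2 (p : ℕ) (W : WeierstrassCurve (𝓞 k)) (K : Type) [Field K] [NumberField K]
    [Algebra k K] : Prop :=
  ∀ (w : HeightOneSpectrum (𝓞 K)) (v : HeightOneSpectrum (𝓞 k)),
    v.asIdeal = w.asIdeal.under (𝓞 k) → Spl k w ∨
      (6 * p * W.Δ ∉ v.asIdeal ∧ (Ram k w → ¬ p ∣ pts (redAt W v) + 1)) ∨
      (¬ Ram k w ∧ ¬ p ∣ tnG W v)

theorem p1_up2 (hLP : S_LP) [IsGalois k K] {p n : ℕ} (hp : p.Prime)
    (hn : Module.finrank k K = p ^ n)
    {W : WeierstrassCurve (𝓞 k)} (hΔ0 : W.Δ ≠ 0) (hfin : FinCond2 p W K)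
    (hinf : p ≠ 2 ∨ InfCond W K) (h : P1 p (W.map (algebraMap (𝓞 k) k))) :
    P1 p ((W.map (algebraMap (𝓞 k) k)).map (algebraMap k K)) := by
  have hch : CharZero (AlgebraicClosure K) := charZero_of_injective_algebraMap
    (algebraMap K (AlgebraicClosure K)).injective
  have halg : Algebra.IsAlgebraic ℚ (AlgebraicClosure K) := Algebra.IsAlgebraic.trans ℚ K _
  set E := W.map (algebraMap (𝓞 k) k) with hE
  set EK := E.map (algebraMap k K) with hEK
  set i : K →+* AlgebraicClosure K := algebraMap K (AlgebraicClosure K) with hi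
  set i0 : k →+* AlgebraicClosure K := i.comp (algebraMap k K) with hi0
  have hV : E.map i0 = EK.baseChange (AlgebraicClosure K) := by
    rw [hi0, ← WeierstrassCurve.map_map]
    rfl
  have hEΔ : E.Δ ≠ 0 := by
    rw [hE, WeierstrassCurve.map_Δ]
    exact fun h => hΔ0 ((FaithfulSMul.algebraMap_injective (𝓞 k) k) (by rw [h, map_zero]))
  have hEKΔ : EK.Δ ≠ 0 := by
    rw [hEK, WeierstrassCurve.map_Δ]
    exact (map_ne_zero _).2 hEΔ
  have hG : ∀ σ ∈ Gf i0, (EK.baseChange (AlgebraicClosure K)).map
      ((σ : AlgebraicClosure K ≃+* AlgebraicClosure K) : AlgebraicClosure K →+* AlgebraicClosure K) =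
      EK.baseChange (AlgebraicClosure K) := by
    intro σ hσ
    rw [← hV, WeierstrassCurve.map_map]
    congr 1
    ext x
    exact hσ x
  have h1 := sel_of_sha hp i0 hV hG h.sha h.fin h.card
  have h2 := lift_sel (k := k) hp hn i hi0.symm hG
    (fun t ht hfix => fixed_tor hp i0 hV hG h.card t ht hfix) (by
      intro q _ ι V' hV' hVd c hc hpc P hP
      have hWV : W.map ((ι.comp i0).comp (algebraMap (𝓞 k) k)) = V' := by
        rw [← hV', ← hV, WeierstrassCurve.map_map, hE, WeierstrassCurve.map_map]
      have hbel : (pls (ι.comp i0)).asIdeal = (pls (ι.comp i)).asIdeal.under (𝓞 k) := by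
        ext x
        rfl
      rcases hfin (pls (ι.comp i)) (pls (ι.comp i0)) hbel with h3 | h3 | ⟨h3, h4⟩
      · exact loc_triv k hp hn W (ι.comp i) (by rw [hi0]; rfl) hWV hVd
          (Or.inl (dd_of_spl (ι.comp i) h3)) hc hpc hP
      · exact loc_triv k hp hn W (ι.comp i) (by rw [hi0]; rfl) hWV hVd (Or.inr h3) hc hpc hP
      · exact hLP q k K p n hp hn W hΔ0 (ι.comp i) (ι.comp i0) (by rw [hi0]; rfl) V' hWV hVd h3 h4
          c hc P hP) (by
      intro ι V' hV' hVd c hc hpc P hP
      refine loc_inf hp (ι.comp i) hVd ?_ hc hpc hP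
      rcases hinf with hp2 | hinf
      · exact Or.inr (Or.inl hp2)
      · by_cases hcj : cj ∈ DD (ι.comp i0)
        · have hr : ComplexEmbedding.IsReal ((ι.comp i).comp (algebraMap k K)) := by
            rw [ComplexEmbedding.isReal_iff]
            ext x
            exact hcj.2 x
          rcases hinf (ι.comp i) hr with h3 | h3
          · left
            intro σ hσ
            refine ⟨hσ.1, ?_⟩
            rcases iso_complex σ hσ.1 with rfl | rfl
            · intro x; rfl
            · intro x
              exact DFunLike.congr_fun (ComplexEmbedding.isReal_iff.1 h3) x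
          · right; right
            intro _
            have h4 : V'.Δ = (ι.comp i) (algebraMap k K (algebraMap (𝓞 k) k W.Δ)) := by
              rw [← hV', ← hV, WeierstrassCurve.map_Δ, WeierstrassCurve.map_Δ, hE,
                WeierstrassCurve.map_Δ]
              rfl
            rw [h4]
            exact h3
        · exact Or.inr (Or.inr fun h => absurd h hcj)) h1
  have hKG : Gf i ≤ Gf i0 := Gf_le (k := k) i
  obtain ⟨h3, h4⟩ := points_of_sel hKG hG hEKΔ hp h2
  exact ⟨sha_of_sel hKG hG hEKΔ hp h2, h3, h4⟩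

end

end Pool.Agent.P8H4.PM
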